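import Mathlib

/-! Kernel-friendly checks for chordless paths in graphs on 16 vertices (following
`Pool.Agent.H659Houg`). -/

set_option autoImplicit false

namespace Pool.Agent.H690R3.QP

open SimpleGraph

/-- an induced path of length `n`, as a function on `ℕ` -/
def IndPath {V : Type} (G : SimpleGraph V) (n : ℕ) (f : ℕ → V) : Prop :=
  ∀ i j, i ≤ n → j ≤ n → (G.Adj (f i) (f j) ↔ (i + 1 = j ∨ j + 1 = i)) ∧ (f i = f j → i = j)

def verts : List ℕ := [0,1,2,3,4,5,6,7,8,9,10,11,12,13,14,15]

/-- `safe A b q k v avail d m`: every induced continuation of a path ending in `v` (length `d`,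
vertex mask `m`) through available vertices to `b` satisfies `q`. -/
def safe (A : ℕ → ℕ) (b : ℕ) (q : ℕ → ℕ → Bool) : ℕ → ℕ → ℕ → ℕ → ℕ → Bool
  | 0, _, _, _, _ => false
  | k+1, v, avail, d, m =>
    verts.all fun u =>
      !((A v &&& avail).testBit u) ||
        (if u == b then q (d+1) (m ||| (1 <<< u))
         else safe A b q k u (avail ^^^ (avail &&& A v)) (d+1) (m ||| (1 <<< u)))

theorem mem_verts (v : Fin 16) : (v : ℕ) ∈ verts := by
  fin_cases v <;> decide

theorem safe_sound (A : ℕ → ℕ) (G : SimpleGraph (Fin 16))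
    (hA : ∀ u v : Fin 16, G.Adj u v ↔ (A u).testBit v = true)
    (q : ℕ → ℕ → Bool) (n : ℕ) (f : ℕ → Fin 16) (hf : IndPath G n f) :
    ∀ k i avail m, i < n → (∀ j, i < j → j ≤ n → avail.testBit (f j) = true) →
      safe A (f n) q k (f i) avail i m = true →
      ∃ m', q n m' = true ∧ ∀ w, m'.testBit w = true →
        m.testBit w = true ∨ ∃ j, i < j ∧ j ≤ n ∧ w = (f j : ℕ) := by
  intro k
  induction k with
  | zero => intro i avail m _ _ h; simp [safe] at h
  | succ k ih =>
    intro i avail m hin hav h
    rw [safe, List.all_eq_true] at h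
    have h1 := h (f (i+1)) (mem_verts _)
    have hadj : (A (f i)).testBit (f (i+1)) = true :=
      (hA _ _).1 (((hf i (i+1) hin.le hin).1).2 (Or.inl rfl))
    have hcand : ((A (f i)) &&& avail).testBit (f (i+1)) = true := by
      rw [Nat.testBit_land, hadj, hav (i+1) (Nat.lt_succ_self i) hin]; rfl
    rw [hcand] at h1
    simp only [Bool.not_true, Bool.false_or] at h1
    by_cases hn : i + 1 = n
    · have hb : ((f (i+1) : ℕ) == (f n : ℕ)) = true := by rw [hn]; simp
      rw [hb] at h1
      simp only [if_true] at h1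
      have h1' : q n (m ||| (1 <<< (f (i+1) : ℕ))) = true := by rw [← hn]; exact h1
      refine ⟨_, h1', ?_⟩
      intro w hw
      rw [Nat.testBit_lor, Bool.or_eq_true] at hw
      rcases hw with hw | hw
      · exact Or.inl hw
      · refine Or.inr ⟨i+1, Nat.lt_succ_self i, hin, ?_⟩
        rw [Nat.one_shiftLeft, Nat.testBit_two_pow] at hw
        simpa using (of_decide_eq_true hw).symm
    · have hlt : i + 1 < n := lt_of_le_of_ne hin hn
      have hb : ((f (i+1) : ℕ) == (f n : ℕ)) = false := by
        rw [beq_eq_false_iff_ne]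
        intro he
        exact hn ((hf (i+1) n hin le_rfl).2 (Fin.ext he))
      rw [hb] at h1
      simp only [Bool.false_eq_true, if_false] at h1
      obtain ⟨m', hq, hm'⟩ := ih (i+1) _ _ hlt (by
        intro j hj hjn
        have hna : (A (f i)).testBit (f j) = false := by
          rw [Bool.eq_false_iff]
          intro hc
          have := ((hf i j hin.le hjn).1).1 ((hA _ _).2 hc)
          omega
        rw [Nat.testBit_xor, Nat.testBit_land, hna, hav j (by omega) hjn]; rfl) h1
      refine ⟨m', hq, ?_⟩
      intro w hw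
      rcases hm' w hw with h2 | ⟨j, hj, hjn, rfl⟩
      · rw [Nat.testBit_lor, Bool.or_eq_true] at h2
        rcases h2 with h2 | h2
        · exact Or.inl h2
        · refine Or.inr ⟨i+1, Nat.lt_succ_self i, hin, ?_⟩
          rw [Nat.one_shiftLeft, Nat.testBit_two_pow] at h2
          simpa using (of_decide_eq_true h2).symm
      · exact Or.inr ⟨j, by omega, hjn, rfl⟩

theorem testBit_full (v : Fin 16) : Nat.testBit 65535 v = true := by
  fin_cases v <;> decide

theorem testBit_one_shl (a w : ℕ) : (1 <<< a).testBit w = decide (a = w) := by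
  rw [Nat.one_shiftLeft, Nat.testBit_two_pow]

/-- the mask lists are complete -/
def maskCheck (A : ℕ → ℕ) (L : List (ℕ × ℕ × List ℕ)) : Bool :=
  L.all fun p =>
    safe A p.2.1 (fun d m => d % 2 == 0 || p.2.2.any fun x => x &&& m == x) 17 p.1
      (65535 ^^^ (1 <<< p.1)) 0 (1 <<< p.1)

theorem mask_sound (A : ℕ → ℕ) (G : SimpleGraph (Fin 16))
    (hA : ∀ u v : Fin 16, G.Adj u v ↔ (A u).testBit v = true) (L : List (ℕ × ℕ × List ℕ))
    (h : maskCheck A L = true) (p : ℕ × ℕ × List ℕ) (hp : p ∈ L) (n : ℕ) (f : ℕ → Fin 16)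
    (hf : IndPath G n f) (h0 : (f 0 : ℕ) = p.1) (hn : (f n : ℕ) = p.2.1) (hodd : ¬ Even n) :
    ∃ x ∈ p.2.2, ∀ w, x.testBit w = true → ∃ j, j ≤ n ∧ w = (f j : ℕ) := by
  rw [maskCheck, List.all_eq_true] at h
  have hp' := h p hp
  have hn0 : 0 < n := by
    rcases Nat.eq_zero_or_pos n with h | h
    · exact absurd (h ▸ Even.zero) hodd
    · exact h
  rw [← hn, ← h0] at hp'
  obtain ⟨m', hq, hm'⟩ := safe_sound A G hA _ n f hf 17 0 _ _ hn0 (by
    intro j hj hjn
    rw [Nat.testBit_xor, testBit_full, testBit_one_shl]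
    have : ¬ ((f 0 : ℕ) = f j) := by
      intro he
      have := (hf 0 j (Nat.zero_le _) hjn).2 (Fin.ext he)
      omega
    simp [this]) hp'
  have hne : (n % 2 == 0) = false := by
    rw [beq_eq_false_iff_ne]
    intro h
    exact hodd (Nat.even_iff.2 h)
  rw [hne, Bool.false_or, List.any_eq_true] at hq
  obtain ⟨x, hx, hxm⟩ := hq
  rw [beq_iff_eq] at hxm
  refine ⟨x, hx, fun w hw => ?_⟩
  have hw' : m'.testBit w = true := by
    have : (x &&& m').testBit w = true := by rw [hxm]; exact hw
    rw [Nat.testBit_land, Bool.and_eq_true] at this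
    exact this.2
  rcases hm' w hw' with h1 | ⟨j, _, hj, rfl⟩
  · rw [testBit_one_shl] at h1
    exact ⟨0, Nat.zero_le _, (of_decide_eq_true h1).symm⟩
  · exact ⟨j, hj, rfl⟩

/-- there is a listed pair inside `inn` all of whose masks meet `out` -/
def evenO (L : List (ℕ × ℕ × List ℕ)) (inn out : ℕ) : Bool :=
  L.any fun p => inn.testBit p.1 && inn.testBit p.2.1 && p.2.2.all fun x => !(x &&& out == 0)

/-- at most one element -/
def small (inn : ℕ) : Bool :=
  verts.all fun u => verts.all fun v => u == v || !(inn.testBit u && inn.testBit v)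

/-- decision tree over all vertex sets -/
def dec (L : List (ℕ × ℕ × List ℕ)) : ℕ → ℕ → ℕ → Bool
  | 0, inn, out => evenO L inn out || inn == 65535 || small inn
  | k+1, inn, out => evenO L inn out ||
      (dec L k (inn ||| (1 <<< k)) out && dec L k inn (out ||| (1 <<< k)))

/-- conclusion of the decision tree -/
def Concl (L : List (ℕ × ℕ × List ℕ)) (S : ℕ) : Prop :=
  (∃ p ∈ L, S.testBit p.1 = true ∧ S.testBit p.2.1 = true ∧
    ∀ x ∈ p.2.2, ∃ w, x.testBit w = true ∧ S.testBit w = false) ∨
  (∀ v : Fin 16, S.testBit v = true) ∨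
  (∀ u v : Fin 16, S.testBit u = true → S.testBit v = true → u = v)

theorem evenO_sound (L : List (ℕ × ℕ × List ℕ)) (S inn out : ℕ) (h : evenO L inn out = true)
    (hi : ∀ i, inn.testBit i = true → S.testBit i = true)
    (ho : ∀ i, out.testBit i = true → S.testBit i = false) : Concl L S := by
  left
  rw [evenO, List.any_eq_true] at h
  obtain ⟨p, hp, h⟩ := h
  rw [Bool.and_eq_true, Bool.and_eq_true, List.all_eq_true] at h
  obtain ⟨⟨h1, h2⟩, h3⟩ := h
  refine ⟨p, hp, hi _ h1, hi _ h2, fun x hx => ?_⟩
  have h4 := h3 x hx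
  rw [Bool.not_eq_true', beq_eq_false_iff_ne] at h4
  by_contra hcon
  push Not at hcon
  apply h4
  apply Nat.eq_of_testBit_eq
  intro w
  rw [Nat.testBit_land, Nat.zero_testBit, Bool.and_eq_false_iff]
  by_cases hw : out.testBit w = true
  · left
    by_contra hx'
    rw [Bool.not_eq_false] at hx'
    exact hcon w hx' (ho w hw)
  · right
    rwa [Bool.not_eq_true] at hw

theorem dec_sound (L : List (ℕ × ℕ × List ℕ)) (S : ℕ) : ∀ k inn out, dec L k inn out = true →
    (∀ i, inn.testBit i = true → S.testBit i = true) →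
    (∀ i, out.testBit i = true → S.testBit i = false) →
    (∀ i, k ≤ i → i < 16 → inn.testBit i = true ∨ out.testBit i = true) → Concl L S := by
  intro k
  induction k with
  | zero =>
    intro inn out h hi ho hd
    rw [dec, Bool.or_eq_true, Bool.or_eq_true] at h
    rcases h with (h | h) | h
    · exact evenO_sound L S inn out h hi ho
    · rw [beq_iff_eq] at h
      refine Or.inr (Or.inl fun v => hi _ ?_)
      rw [h]; exact testBit_full v
    · refine Or.inr (Or.inr fun u v hu hv => ?_)
      have hin : ∀ w : Fin 16, S.testBit w = true → inn.testBit w = true := by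
        intro w hw
        rcases hd w (Nat.zero_le _) w.2 with h1 | h1
        · exact h1
        · rw [ho _ h1] at hw; exact absurd hw (by decide)
      rw [small, List.all_eq_true] at h
      have h1 := h u (mem_verts u)
      rw [List.all_eq_true] at h1
      have h2 := h1 v (mem_verts v)
      rw [hin u hu, hin v hv, Bool.or_eq_true, beq_iff_eq] at h2
      rcases h2 with h2 | h2
      · exact Fin.ext h2
      · exact absurd h2 (by decide)
  | succ k ih =>
    intro inn out h hi ho hd
    rw [dec, Bool.or_eq_true, Bool.and_eq_true] at h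
    rcases h with h | h
    · exact evenO_sound L S inn out h hi ho
    · cases hb : S.testBit k with
      | true =>
        refine ih _ _ h.1 ?_ ho ?_
        · intro i hi'
          rw [Nat.testBit_lor, Bool.or_eq_true, testBit_one_shl] at hi'
          rcases hi' with h1 | h1
          · exact hi i h1
          · rw [← of_decide_eq_true h1]; exact hb
        · intro i hik hi16
          rw [Nat.testBit_lor, Bool.or_eq_true, testBit_one_shl]
          rcases Nat.eq_or_lt_of_le hik with rfl | hik
          · left; right; exact decide_eq_true rfl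
          · rcases hd i hik hi16 with h1 | h1
            · left; left; exact h1
            · right; exact h1
      | false =>
        refine ih _ _ h.2 hi ?_ ?_
        · intro i hi'
          rw [Nat.testBit_lor, Bool.or_eq_true, testBit_one_shl] at hi'
          rcases hi' with h1 | h1
          · exact ho i h1
          · rw [← of_decide_eq_true h1]; exact hb
        · intro i hik hi16
          rw [Nat.testBit_lor, Bool.or_eq_true, testBit_one_shl]
          rcases Nat.eq_or_lt_of_le hik with rfl | hik
          · right; right; exact decide_eq_true rfl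
          · rcases hd i hik hi16 with h1 | h1
            · left; exact h1
            · right; left; exact h1

def tableLookup (L : List (List ℕ)) (u v : ℕ) : List ℕ :=
  match L.find? (fun l => l.getD 0 0 == u && l.getD (l.length - 1) 0 == v) with
  | some l => l
  | none =>
    match L.find? (fun l => l.getD 0 0 == v && l.getD (l.length - 1) 0 == u) with
    | some l => l.reverse
    | none => [u, v]

def okPath (A : ℕ → ℕ) (l : List ℕ) (u v : ℕ) : Bool :=
  l.length % 2 == 0 && Nat.ble 2 l.length && l.getD 0 0 == u && l.getD (l.length - 1) 0 == v &&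
  (List.range l.length).all fun i => Nat.blt (l.getD i 0) 16 && (List.range l.length).all fun j =>
    ((A (l.getD i 0)).testBit (l.getD j 0) == (i + 1 == j || j + 1 == i)) &&
      ((l.getD i 0 == l.getD j 0) == (i == j))

theorem okPath_sound (A : ℕ → ℕ) (G : SimpleGraph (Fin 16))
    (hA : ∀ u v : Fin 16, G.Adj u v ↔ (A u).testBit v = true) (l : List ℕ) (u v : Fin 16)
    (h : okPath A l u v = true) :
    ∃ (n : ℕ) (f : ℕ → Fin 16), ¬ Even n ∧ IndPath G n f ∧ f 0 = u ∧ f n = v := by
  rw [okPath] at h
  simp only [Bool.and_eq_true, beq_iff_eq, List.all_eq_true, List.mem_range] at h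
  obtain ⟨⟨⟨⟨hpar, h2⟩, h0⟩, hlast⟩, hall⟩ := h
  have h2' : 2 ≤ l.length := Nat.le_of_ble_eq_true h2
  obtain ⟨n, hn⟩ : ∃ n, l.length = n + 1 := ⟨l.length - 1, by omega⟩
  have hlt16 : ∀ i : ℕ, i < n + 1 → l.getD i 0 < 16 := by
    intro i hi
    have := (hall i (by omega)).1
    rw [Nat.blt_eq] at this
    exact this
  have hrel : ∀ i j : ℕ, i < n + 1 → j < n + 1 →
      ((A (l.getD i 0)).testBit (l.getD j 0) = (i + 1 == j || j + 1 == i)) ∧
      ((l.getD i 0 == l.getD j 0) = (i == j)) := by
    intro i j hi hj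
    exact (hall i (by omega)).2 j (by omega)
  refine ⟨n, fun i => if hi : i < n + 1 then ⟨l.getD i 0, hlt16 i hi⟩ else u, ?_, ?_, ?_, ?_⟩
  · rw [Nat.even_iff]; omega
  · intro i j hi hj
    have hi' : i < n + 1 := by omega
    have hj' : j < n + 1 := by omega
    simp only [hi', hj', dif_pos]
    constructor
    · rw [hA]
      show (A (l.getD i 0)).testBit (l.getD j 0) = true ↔ _
      rw [(hrel i j hi' hj').1, Bool.or_eq_true, beq_iff_eq, beq_iff_eq]
    · intro hij
      have h3 := (hrel i j hi' hj').2
      have h4 : l.getD i 0 = l.getD j 0 := by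
        have := congrArg Fin.val hij
        exact this
      have h5 : (l.getD i 0 == l.getD j 0) = true := beq_iff_eq.2 h4
      rw [h5] at h3
      exact beq_iff_eq.1 h3.symm
  · have : 0 < n + 1 := by omega
    simp only [this, dif_pos]
    exact Fin.ext h0
  · have : n < n + 1 := by omega
    simp only [this, dif_pos]
    apply Fin.ext
    show l.getD n 0 = v
    rw [← hlast, hn]
    rfl

/-- line graphs are claw-free -/
theorem lineGraph_clawFree {W : Type} (H : SimpleGraph W) (e a b c : H.edgeSet)
    (ha : H.lineGraph.Adj e a) (hb : H.lineGraph.Adj e b) (hc : H.lineGraph.Adj e c)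
    (hab : a ≠ b) (hac : a ≠ c) (hbc : b ≠ c) :
    H.lineGraph.Adj a b ∨ H.lineGraph.Adj a c ∨ H.lineGraph.Adj b c := by
  rw [lineGraph_adj_iff_exists] at ha hb hc
  simp only [lineGraph_adj_iff_exists]
  obtain ⟨-, x, hxe, hxa⟩ := ha
  obtain ⟨-, y, hye, hyb⟩ := hb
  obtain ⟨-, z, hze, hzc⟩ := hc
  have : x = y ∨ x = z ∨ y = z := by
    obtain ⟨e, he⟩ := e
    induction e using Sym2.ind with
    | _ p q =>
      simp only [Sym2.mem_iff] at hxe hye hze
      rcases hxe with rfl | rfl <;> rcases hye with rfl | rfl <;> rcases hze with rfl | rfl <;> simp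
  rcases this with rfl | rfl | rfl
  · exact Or.inl ⟨hab, _, hxa, hyb⟩
  · exact Or.inr (Or.inl ⟨hac, _, hxa, hzc⟩)
  · exact Or.inr (Or.inr ⟨hbc, _, hyb, hzc⟩)

/-- a graph with a claw is not a line graph -/
theorem not_lineGraph_of_claw {V W : Type} (G : SimpleGraph V) (H : SimpleGraph W) (e a b c : V)
    (ha : G.Adj e a) (hb : G.Adj e b) (hc : G.Adj e c) (hab : ¬ G.Adj a b) (hac : ¬ G.Adj a c)
    (hbc : ¬ G.Adj b c) (hab' : a ≠ b) (hac' : a ≠ c) (hbc' : b ≠ c) :
    ¬ Nonempty (G ≃g H.lineGraph) := by
  rintro ⟨φ⟩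
  have hadj : ∀ u v : V, H.lineGraph.Adj (φ u) (φ v) ↔ G.Adj u v := fun u v => φ.map_adj_iff
  have := lineGraph_clawFree H (φ e) (φ a) (φ b) (φ c) ((hadj _ _).2 ha) ((hadj _ _).2 hb)
    ((hadj _ _).2 hc) (fun h => hab' (φ.injective h)) (fun h => hac' (φ.injective h))
    (fun h => hbc' (φ.injective h))
  rw [hadj, hadj, hadj] at this
  tauto

/-- a chordless walk is an induced path -/
theorem indPath_of_walk {V : Type} (K : SimpleGraph V) {x y : V} (p : K.Walk x y) (hp : p.IsPath)
    (hc : ∀ i j : ℕ, i + 1 < j → j ≤ p.length → ¬ K.Adj (p.getVert i) (p.getVert j)) :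
    IndPath K p.length p.getVert := by
  intro i j hi hj
  refine ⟨⟨fun h => ?_, ?_⟩, fun h => hp.getVert_injOn hi hj h⟩
  · by_contra hcon
    push Not at hcon
    rcases lt_trichotomy i j with hlt | heq | hgt
    · exact hc i j (by omega) hj h
    · rw [heq] at h; exact h.ne rfl
    · exact hc j i (by omega) hi h.symm
  · rintro (rfl | rfl)
    · exact p.adj_getVert_succ (by omega)
    · exact (p.adj_getVert_succ (by omega)).symm

/-- a walk along a function -/
theorem exists_walk {V : Type} (K : SimpleGraph V) (f : ℕ → V) : ∀ n : ℕ,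
    (∀ i, i < n → K.Adj (f i) (f (i + 1))) →
    ∃ p : K.Walk (f 0) (f n), p.length = n ∧ ∀ i, i ≤ n → p.getVert i = f i := by
  intro n
  induction n with
  | zero =>
    intro _
    refine ⟨Walk.nil, rfl, fun i hi => ?_⟩
    have : i = 0 := by omega
    rw [this]; simp
  | succ n ih =>
    intro h
    obtain ⟨p, hl, hv⟩ := ih (fun i hi => h i (by omega))
    refine ⟨p.concat (h n (by omega)), by rw [Walk.length_concat, hl], fun i hi => ?_⟩
    by_cases hin : i ≤ n
    · rw [Walk.concat_eq_append, Walk.getVert_append]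
      by_cases h' : i < p.length
      · rw [if_pos h']; exact hv i hin
      · have : i = n := by omega
        rw [if_neg h', this, hl]
        simp
    · have : i = n + 1 := by omega
      have e : i = (p.concat (h n (by omega))).length := by rw [Walk.length_concat, hl, this]
      rw [e, Walk.getVert_length, Walk.length_concat, hl]

end Pool.Agent.H690R3.QP
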