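import Pool.Agent.H690R3.QP.Data

/-! The 16-vertex graph is minimally non-quasi-parity and is not on Hougardy's list. -/

set_option autoImplicit false

namespace Pool.Agent.H690R3.QP

open SimpleGraph

/-- `x, y` is an even pair of the subgraph of `K` induced by `T` -/
def EvenPairIn (K : SimpleGraph (Fin 16)) (T : Finset (Fin 16)) (x y : Fin 16) : Prop :=
  x ∈ T ∧ y ∈ T ∧ x ≠ y ∧ ¬ K.Adj x y ∧
    ∀ p : K.Walk x y, p.IsPath → (∀ v ∈ p.support, v ∈ T) →
      (∀ i j : ℕ, i + 1 < j → j ≤ p.length → ¬ K.Adj (p.getVert i) (p.getVert j)) →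
      Even p.length

theorem no_even_pair (K : SimpleGraph (Fin 16)) (A : ℕ → ℕ)
    (hA : ∀ u v : Fin 16, K.Adj u v ↔ (A u).testBit v = true) (L : List (List ℕ))
    (hok : ∀ u v : Fin 16, u ≠ v → (A u).testBit v = false →
      okPath A (tableLookup L u v) u v = true) (x y : Fin 16) :
    ¬ EvenPairIn K Finset.univ x y := by
  rintro ⟨_, _, hxy, hna, hp⟩
  have hAf : (A x).testBit y = false := by
    rw [Bool.eq_false_iff]; exact fun h => hna ((hA x y).2 h)
  obtain ⟨n, f, hodd, hf, h0, h1⟩ := okPath_sound A K hA _ x y (hok x y hxy hAf)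
  subst h0 h1
  obtain ⟨p, hl, hv⟩ := exists_walk K f n
    (fun i hi => ((hf i (i+1) (by omega) (by omega)).1).2 (Or.inl rfl))
  have hpath : p.IsPath := by
    rw [← Walk.IsPath.getVert_injOn_iff]
    intro i hi j hj hij
    simp only [Set.mem_setOf_eq, hl] at hi hj
    rw [hv i hi, hv j hj] at hij
    exact (hf i j hi hj).2 hij
  have := hp p hpath (fun _ _ => Finset.mem_univ _) (by
    intro i j hij hj hadj
    rw [hl] at hj
    rw [hv i (by omega), hv j hj] at hadj
    have := ((hf i j (by omega) hj).1).1 hadj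
    omega)
  rw [hl] at this
  exact hodd this

theorem even_of_masks (K : SimpleGraph (Fin 16)) (A : ℕ → ℕ)
    (hA : ∀ u v : Fin 16, K.Adj u v ↔ (A u).testBit v = true) (L : List (ℕ × ℕ × List ℕ))
    (hm : maskCheck A L = true)
    (hna : L.all (fun p => Nat.blt p.1 16 && Nat.blt p.2.1 16 && !(p.1 == p.2.1) &&
      !((A p.1).testBit p.2.1)) = true)
    (T : Finset (Fin 16)) (S : ℕ) (hS : ∀ v : Fin 16, S.testBit v = decide (v ∈ T))
    (p : ℕ × ℕ × List ℕ) (hp : p ∈ L) (h1 : S.testBit p.1 = true) (h2 : S.testBit p.2.1 = true)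
    (h3 : ∀ x ∈ p.2.2, ∃ w, x.testBit w = true ∧ S.testBit w = false) :
    ∃ x y : Fin 16, EvenPairIn K T x y := by
  rw [List.all_eq_true] at hna
  have hna' := hna p hp
  simp only [Bool.and_eq_true, Nat.blt_eq, Bool.not_eq_true', beq_eq_false_iff_ne] at hna'
  obtain ⟨⟨⟨ha, hb⟩, hne⟩, hn⟩ := hna'
  refine ⟨⟨p.1, ha⟩, ⟨p.2.1, hb⟩, ?_, ?_, ?_, ?_, ?_⟩
  · have := hS ⟨p.1, ha⟩
    rw [h1] at this
    exact of_decide_eq_true this.symm
  · have := hS ⟨p.2.1, hb⟩
    rw [h2] at this
    exact of_decide_eq_true this.symm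
  · intro he
    exact hne (by simpa using he)
  · rw [hA]
    intro he
    rw [he] at hn
    exact absurd hn (by decide)
  · intro w hw hin hc
    by_contra hodd
    have hf := indPath_of_walk K w hw hc
    obtain ⟨x, hx, hxw⟩ := mask_sound A K hA L hm p hp w.length w.getVert hf
      (by rw [Walk.getVert_zero]) (by rw [Walk.getVert_length]) hodd
    obtain ⟨i, hi1, hi2⟩ := h3 x hx
    obtain ⟨j, hj, rfl⟩ := hxw i hi1
    rw [hS, decide_eq_false_iff_not] at hi2
    exact hi2 (hin _ (w.getVert_mem_support j))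

theorem not_qp : ¬ ∀ T : Finset (Fin 16), 2 ≤ T.card →
    ∃ K : SimpleGraph (Fin 16), (K = G ∨ K = Gᶜ) ∧ ∃ x y, EvenPairIn K T x y := by
  intro h
  obtain ⟨K, hK, x, y, hp⟩ := h Finset.univ (by simp)
  rcases hK with rfl | rfl
  · exact no_even_pair G adj G_adj pathsG okG x y hp
  · exact no_even_pair Gᶜ coadj Gc_adj pathsC okC x y hp

theorem proper_qp (T : Finset (Fin 16)) (hT : T ≠ Finset.univ) (h2 : 2 ≤ T.card) :
    ∃ K : SimpleGraph (Fin 16), (K = G ∨ K = Gᶜ) ∧ ∃ x y, EvenPairIn K T x y := by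
  set S : ℕ := Nat.ofBits (fun i : Fin 16 => decide (i ∈ T)) with hSdef
  have hS : ∀ v : Fin 16, S.testBit v = decide (v ∈ T) := by
    intro v
    rw [hSdef, Nat.testBit_ofBits_lt _ _ v.2]
  have hc : Concl (pairsG ++ pairsC) S := by
    refine dec_sound _ S 16 0 0 dec_true (fun i hi => ?_) (fun i hi => ?_) (fun i h1 h2 => by omega)
    · rw [Nat.zero_testBit] at hi; exact absurd hi (by decide)
    · rw [Nat.zero_testBit] at hi; exact absurd hi (by decide)
  rcases hc with ⟨p, hp, ha, hb, hx⟩ | h | h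
  · rcases List.mem_append.1 hp with hp | hp
    · exact ⟨G, Or.inl rfl, even_of_masks G adj G_adj pairsG maskG nonadjG T S hS p hp ha hb hx⟩
    · exact ⟨Gᶜ, Or.inr rfl, even_of_masks Gᶜ coadj Gc_adj pairsC maskC nonadjC T S hS p hp ha hb hx⟩
  · exfalso
    apply hT
    rw [Finset.eq_univ_iff_forall]
    intro v
    have := hS v
    rw [h v] at this
    exact of_decide_eq_true this.symm
  · exfalso
    have : T.card ≤ 1 := by
      rw [Finset.card_le_one]
      intro a ha b hb
      exact h a b (by rw [hS]; exact decide_eq_true ha) (by rw [hS]; exact decide_eq_true hb)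
    omega

theorem not_line (H : SimpleGraph (Fin 16)) (hH : H = G ∨ H = Gᶜ) {W : Type} (B : SimpleGraph W) :
    ¬ Nonempty (H ≃g B.lineGraph) := by
  rcases hH with rfl | rfl
  · obtain ⟨h1, h2, h3, h4, h5, h6⟩ := clawG
    refine not_lineGraph_of_claw G B 0 1 4 8 ((G_adj 0 1).2 h1) ((G_adj 0 4).2 h2)
      ((G_adj 0 8).2 h3) ?_ ?_ ?_ (by decide) (by decide) (by decide)
    · rw [G_adj]; exact fun h => absurd (h.symm.trans h4) (by decide)
    · rw [G_adj]; exact fun h => absurd (h.symm.trans h5) (by decide)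
    · rw [G_adj]; exact fun h => absurd (h.symm.trans h6) (by decide)
  · obtain ⟨h1, h2, h3, h4, h5, h6⟩ := clawC
    refine not_lineGraph_of_claw Gᶜ B 0 9 13 15 ((Gc_adj 0 9).2 h1) ((Gc_adj 0 13).2 h2)
      ((Gc_adj 0 15).2 h3) ?_ ?_ ?_ (by decide) (by decide) (by decide)
    · rw [Gc_adj]; exact fun h => absurd (h.symm.trans h4) (by decide)
    · rw [Gc_adj]; exact fun h => absurd (h.symm.trans h5) (by decide)
    · rw [Gc_adj]; exact fun h => absurd (h.symm.trans h6) (by decide)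

end Pool.Agent.H690R3.QP
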